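import Pool.Agent.H699.T.Dec

/-!
# Collapsing a metric space: the two inequalities
-/

set_option autoImplicit false

namespace Pool.Agent.H189.T.COLL

open Finset Classical
open Pool.Agent.H699.T

/-! ### closed walks -/

section walks

variable {α : Type}

theorem walk_mono {g g' : α → α → ℝ} (h : ∀ x y, g x y ≤ g' x y) :
    ∀ l : List α, walk g l ≤ walk g' l
  | [] => le_rfl
  | [_] => le_rfl
  | a :: b :: l => by
    unfold walk
    exact add_le_add (h a b) (walk_mono h (b :: l))

theorem cyc_mono {g g' : α → α → ℝ} (h : ∀ x y, g x y ≤ g' x y) (l : List α) :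
    cyc g l ≤ cyc g' l := by
  cases l with
  | nil => exact le_rfl
  | cons a l => exact walk_mono h _

theorem walk_add (g g' : α → α → ℝ) :
    ∀ l : List α, walk (fun x y => g x y + g' x y) l = walk g l + walk g' l
  | [] => by unfold walk; ring
  | [_] => by unfold walk; ring
  | a :: b :: l => by
    unfold walk
    rw [walk_add g g' (b :: l)]
    ring

theorem cyc_add (g g' : α → α → ℝ) (l : List α) :
    cyc (fun x y => g x y + g' x y) l = cyc g l + cyc g' l := by
  cases l with
  | nil => unfold cyc; ring
  | cons a l => exact walk_add g g' _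

theorem walk_mul (k : ℝ) (g : α → α → ℝ) :
    ∀ l : List α, walk (fun x y => k * g x y) l = k * walk g l
  | [] => by unfold walk; ring
  | [_] => by unfold walk; ring
  | a :: b :: l => by
    unfold walk
    rw [walk_mul k g (b :: l)]
    ring

theorem cyc_mul (k : ℝ) (g : α → α → ℝ) (l : List α) :
    cyc (fun x y => k * g x y) l = k * cyc g l := by
  cases l with
  | nil => unfold cyc; ring
  | cons a l => exact walk_mul k g _

theorem walk_zero : ∀ l : List α, walk (fun _ _ => 0) l = 0
  | [] => rfl
  | [_] => rfl
  | a :: b :: l => by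
    unfold walk
    rw [walk_zero (b :: l)]
    ring

theorem cyc_zero (l : List α) : cyc (fun _ _ => 0) l = 0 := by
  cases l with
  | nil => rfl
  | cons a l => exact walk_zero _

theorem cyc_sum {ι : Type} (s : Finset ι) (g : ι → α → α → ℝ) (l : List α) :
    cyc (fun x y => ∑ i ∈ s, g i x y) l = ∑ i ∈ s, cyc (g i) l := by
  induction s using Finset.induction_on with
  | empty =>
    simp only [Finset.sum_empty]
    exact cyc_zero l
  | insert a s ha ih =>
    simp only [Finset.sum_insert ha]
    rw [cyc_add (fun x y => g a x y) (fun x y => ∑ i ∈ s, g i x y) l, ih]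

theorem walk_map {β : Type} (g : β → β → ℝ) (f : α → β) :
    ∀ l : List α, walk g (l.map f) = walk (fun x y => g (f x) (f y)) l
  | [] => rfl
  | [_] => rfl
  | a :: b :: l => by
    have h := walk_map g f (b :: l)
    simp only [List.map_cons] at h ⊢
    unfold walk
    rw [h]

theorem cyc_map {β : Type} (g : β → β → ℝ) (f : α → β) (l : List α) :
    cyc g (l.map f) = cyc (fun x y => g (f x) (f y)) l := by
  cases l with
  | nil => rfl
  | cons a l =>
    have h := walk_map g f (a :: (l ++ [a]))
    simp only [List.map_cons, List.map_append, List.map_nil] at h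
    exact h

theorem walk_append (g : α → α → ℝ) (a : α) (t : List α) :
    ∀ s : List α, walk g (s ++ a :: t) = walk g (s ++ [a]) + walk g (a :: t)
  | [] => by
    show walk g (a :: t) = walk g [a] + walk g (a :: t)
    unfold walk
    ring
  | [b] => by
    show g b a + walk g (a :: t) = (g b a + walk g [a]) + walk g (a :: t)
    have : walk g [a] = 0 := rfl
    rw [this]
    ring
  | b :: c :: s => by
    have h := walk_append g a t (c :: s)
    show g b c + walk g ((c :: s) ++ a :: t) = (g b c + walk g ((c :: s) ++ [a])) + walk g (a :: t)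
    rw [h]
    ring

/-- invariance under rotation -/
theorem cyc_rot (g : α → α → ℝ) (a : α) (s t : List α) :
    cyc g (s ++ a :: t) = cyc g (a :: (t ++ s)) := by
  cases s with
  | nil => rw [List.append_nil]; rfl
  | cons b s =>
    have h1 := walk_append g a (t ++ [b]) (b :: s)
    have h2 := walk_append g b (s ++ [a]) (a :: t)
    have e1 : cyc g ((b :: s) ++ a :: t) = walk g ((b :: s) ++ a :: (t ++ [b])) := by
      show walk g (b :: ((s ++ a :: t) ++ [b])) = walk g (b :: (s ++ a :: (t ++ [b])))
      rw [List.append_assoc]
      rfl
    have e2 : cyc g (a :: (t ++ b :: s)) = walk g ((a :: t) ++ b :: (s ++ [a])) := by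
      show walk g (a :: ((t ++ b :: s) ++ [a])) = walk g (a :: (t ++ b :: (s ++ [a])))
      rw [List.append_assoc]
      rfl
    have e3 : walk g ((b :: s) ++ [a]) = walk g (b :: (s ++ [a])) := rfl
    have e4 : walk g ((a :: t) ++ [b]) = walk g (a :: (t ++ [b])) := rfl
    rw [e1, e2, h1, h2, e3, e4]
    ring

/-- shortcuts along a walk -/
theorem walk_filter (d : α → α → ℝ) (p : α → Prop) (D : ℝ) (hD : ∀ x y, p x → p y → d x y ≤ D)
    (e : α) (he : p e) : ∀ l : List α,
    (∀ a, p a → walk d (a :: (l.filter (fun x => decide (p x)) ++ [e])) ≤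
      walk (fun x y => if p x ∧ p y then d x y else if p x then D else 0) (a :: (l ++ [e]))) ∧
    (∀ a b, p a → ¬ p b → walk d (a :: (l.filter (fun x => decide (p x)) ++ [e])) ≤
      D + walk (fun x y => if p x ∧ p y then d x y else if p x then D else 0) (b :: (l ++ [e])))
  | [] => by
    constructor
    · intro a ha
      show d a e + 0 ≤ (if p a ∧ p e then d a e else if p a then D else 0) + 0
      rw [if_pos ⟨ha, he⟩]
    · intro a b ha hb
      show d a e + 0 ≤ D + ((if p b ∧ p e then d b e else if p b then D else 0) + 0)
      rw [if_neg (fun h => hb h.1), if_neg hb]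
      have := hD a e ha he
      linarith
  | x :: l => by
    obtain ⟨h1, h2⟩ := walk_filter d p D hD e he l
    by_cases hx : p x
    · have e1 : (x :: l).filter (fun x => decide (p x)) = x :: l.filter (fun x => decide (p x)) :=
        List.filter_cons_of_pos (decide_eq_true hx)
      rw [e1]
      constructor
      · intro a ha
        show d a x + walk d (x :: (l.filter (fun x => decide (p x)) ++ [e])) ≤
          (if p a ∧ p x then d a x else if p a then D else 0) + walk _ (x :: (l ++ [e]))
        rw [if_pos ⟨ha, hx⟩]
        have := h1 x hx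
        linarith
      · intro a b ha hb
        show d a x + walk d (x :: (l.filter (fun x => decide (p x)) ++ [e])) ≤
          D + ((if p b ∧ p x then d b x else if p b then D else 0) + walk _ (x :: (l ++ [e])))
        rw [if_neg (fun h => hb h.1), if_neg hb]
        have := h1 x hx
        have := hD a x ha hx
        linarith
    · have e1 : (x :: l).filter (fun x => decide (p x)) = l.filter (fun x => decide (p x)) :=
        List.filter_cons_of_neg (by simpa using hx)
      rw [e1]
      constructor
      · intro a ha
        show walk d (a :: (l.filter (fun x => decide (p x)) ++ [e])) ≤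
          (if p a ∧ p x then d a x else if p a then D else 0) + walk _ (x :: (l ++ [e]))
        rw [if_neg (fun h => hx h.2), if_pos ha]
        exact h2 a x ha hx
      · intro a b ha hb
        show walk d (a :: (l.filter (fun x => decide (p x)) ++ [e])) ≤
          D + ((if p b ∧ p x then d b x else if p b then D else 0) + walk _ (x :: (l ++ [e])))
        rw [if_neg (fun h => hb h.1), if_neg hb, zero_add]
        exact h2 a x ha hx

end walks

theorem met_nonneg {α : Type} {d : α → α → ℝ} (hd : IsMet d) (x y : α) : 0 ≤ d x y := by
  have h1 := hd.tri x y x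
  rw [hd.self, hd.symm y x] at h1
  linarith

theorem cyc_nonneg {α : Type} {g : α → α → ℝ} (h : ∀ x y, 0 ≤ g x y) (l : List α) :
    0 ≤ cyc g l := by
  have := cyc_mono (g := fun _ _ => 0) (g' := g) h l
  rwa [cyc_zero] at this

/-- one fibre -/
theorem fibre {α : Type} [Fintype α] {d : α → α → ℝ} (hle : S_TSPLE) (hd : IsMet d)
    {f : α → α} {I : Finset α} {Dm : ℝ} (hD0 : 0 ≤ Dm)
    (hD : ∀ x y, f x = f y → d x y ≤ Dm) (hI : ∀ x y, f x = f y → x ≠ y → x ∈ I ∧ y ∈ I)
    {l : List α} (hl : ∀ x, x ∈ l) {c : α} (hc : f c = c) :
    tsp d (univ.filter fun x => f x = c) ≤ cyc (fun x y => if f x = c then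
      (if f x = f y then d x y else if x ∈ I ∨ y ∈ I then Dm else 0) else 0) l := by
  have hnn : ∀ x y : α, 0 ≤ (if f x = c then
      (if f x = f y then d x y else if x ∈ I ∨ y ∈ I then Dm else 0) else 0) := by
    intro x y
    split_ifs
    · exact met_nonneg hd x y
    · exact hD0
    · exact le_rfl
    · exact le_rfl
  by_cases h1 : ∃ x, f x = c ∧ x ≠ c
  · obtain ⟨x0, hx0, hx0c⟩ := h1
    have hcI : ∀ y, f y = c → y ∈ I := by
      intro y hy
      by_cases hyc : y = c
      · rw [hyc]
        exact (hI x0 c (by rw [hx0, hc]) hx0c).2
      · exact (hI y c (by rw [hy, hc]) hyc).1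
    obtain ⟨s, t, hst⟩ := List.append_of_mem (hl c)
    rw [hst, cyc_rot]
    have h2 : tsp d (univ.filter fun x => f x = c) ≤
        cyc d ((c :: (t ++ s)).filter (fun x => decide (f x = c))) := by
      apply hle α d hd
      intro x hx
      rw [Finset.mem_filter] at hx
      rw [List.mem_filter]
      refine ⟨?_, by simpa using hx.2⟩
      have := hl x
      rw [hst] at this
      simp only [List.mem_append, List.mem_cons] at this ⊢
      tauto
    refine h2.trans ?_
    have e1 : (c :: (t ++ s)).filter (fun x => decide (f x = c)) =
        c :: (t ++ s).filter (fun x => decide (f x = c)) :=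
      List.filter_cons_of_pos (decide_eq_true hc)
    rw [e1]
    have h3 := (walk_filter d (fun x => f x = c) Dm (fun x y hx hy => hD x y (by rw [hx, hy])) c hc
      (t ++ s)).1 c hc
    refine (le_trans h3 ?_)
    show walk _ _ ≤ walk _ _
    refine walk_mono ?_ _
    intro x y
    by_cases hx : f x = c
    · by_cases hy : f y = c
      · rw [if_pos ⟨hx, hy⟩, if_pos hx, if_pos (by rw [hx, hy])]
      · rw [if_neg (fun h => hy h.2), if_pos hx, if_pos hx,
          if_neg (fun h => hy (by rw [← h, hx])), if_pos (Or.inl (hcI x hx))]
    · rw [if_neg (fun h => hx h.1), if_neg hx, if_neg hx]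
  · have h2 : tsp d (univ.filter fun x => f x = c) ≤ cyc d [c] := by
      apply hle α d hd
      intro x hx
      rw [Finset.mem_filter] at hx
      rw [List.mem_singleton]
      by_contra h
      exact h1 ⟨x, hx.2, h⟩
    have h3 : cyc d [c] = 0 := by
      show d c c + 0 = 0
      rw [hd.self, add_zero]
    rw [h3] at h2
    exact h2.trans (cyc_nonneg hnn l)

/-- **COLL** -/
theorem t_COLL : S_TSPLE → S_TSPATT → S_TSPUN → S_COLL := by
  intro hle _ hun α _ d hd f I Dm hf hD0 hD hI
  constructor
  · -- first part
    have key : ∀ T : Finset α, T ⊆ univ.image f →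
        tsp d (univ.image f ∪ T.biUnion (fun c => univ.filter fun x => f x = c)) ≤
          tsp d (univ.image f) + ∑ c ∈ T, tsp d (univ.filter fun x => f x = c) := by
      intro T
      induction T using Finset.induction_on with
      | empty =>
        intro _
        rw [Finset.biUnion_empty, Finset.union_empty, Finset.sum_empty, add_zero]
      | insert c T hcT ih =>
        intro hT
        have hc : c ∈ univ.image f := hT (Finset.mem_insert_self c T)
        have hfc : f c = c := by
          obtain ⟨x, -, hx⟩ := Finset.mem_image.1 hc
          rw [← hx, hf]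
        have ih' := ih ((Finset.subset_insert c T).trans hT)
        rw [Finset.sum_insert hcT]
        have e1 : univ.image f ∪ (insert c T).biUnion (fun c => univ.filter fun x => f x = c) =
            (univ.image f ∪ T.biUnion (fun c => univ.filter fun x => f x = c)) ∪
              univ.filter (fun x => f x = c) := by
          rw [Finset.biUnion_insert]
          ext x
          simp only [Finset.mem_union]
          tauto
        rw [e1]
        have h1 := hun α d hd (univ.image f ∪ T.biUnion (fun c => univ.filter fun x => f x = c))
          (univ.filter (fun x => f x = c)) ⟨c, Finset.mem_inter.2 ⟨Finset.mem_union_left _ hc,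
            Finset.mem_filter.2 ⟨Finset.mem_univ _, hfc⟩⟩⟩
        linarith
    have h1 := key (univ.image f) (Finset.Subset.refl _)
    have e1 : univ.image f ∪ (univ.image f).biUnion (fun c => univ.filter fun x => f x = c) =
        univ := by
      apply Finset.eq_univ_of_forall
      intro x
      exact Finset.mem_union_right _ (Finset.mem_biUnion.2 ⟨f x, Finset.mem_image_of_mem f
        (Finset.mem_univ x), Finset.mem_filter.2 ⟨Finset.mem_univ x, rfl⟩⟩)
    rw [e1] at h1
    exact h1
  · -- second part
    intro l _ hl
    have hl' : ∀ x, x ∈ l := by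
      intro x
      rw [← List.mem_toFinset, hl]
      exact Finset.mem_univ x
    have hfI : ∀ x, x ∉ I → f x = x := by
      intro x hx
      by_contra h
      exact hx (hI (f x) x (hf x) h).2
    -- the image
    have h1 : tsp d (univ.image f) ≤ cyc (fun x y => if f x = f y then 0 else
        d x y + (if x ∈ I ∨ y ∈ I then 2 * Dm else 0)) l := by
      have h2 : tsp d (univ.image f) ≤ cyc d (l.map f) := by
        apply hle α d hd
        intro x hx
        obtain ⟨y, -, hy⟩ := Finset.mem_image.1 hx
        exact List.mem_map.2 ⟨y, hl' y, hy⟩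
      rw [cyc_map] at h2
      refine h2.trans (cyc_mono ?_ l)
      intro x y
      by_cases hxy : f x = f y
      · rw [if_pos hxy, hxy, hd.self]
      · rw [if_neg hxy]
        have t1 := hd.tri (f x) x (f y)
        have t2 := hd.tri x y (f y)
        by_cases h : x ∈ I ∨ y ∈ I
        · rw [if_pos h]
          have t3 := hD (f x) x (hf x)
          have t4 := hD y (f y) (hf y).symm
          linarith
        · rw [if_neg h]
          have hx : f x = x := hfI x (fun h' => h (Or.inl h'))
          have hy : f y = y := hfI y (fun h' => h (Or.inr h'))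
          rw [hx, hy, add_zero]
    -- the fibres
    have h2 : ∑ c ∈ univ.image f, tsp d (univ.filter fun x => f x = c) ≤
        cyc (fun x y => if f x = f y then d x y else if x ∈ I ∨ y ∈ I then Dm else 0) l := by
      have h3 : ∑ c ∈ univ.image f, tsp d (univ.filter fun x => f x = c) ≤
          ∑ c ∈ univ.image f, cyc (fun x y => if f x = c then
            (if f x = f y then d x y else if x ∈ I ∨ y ∈ I then Dm else 0) else 0) l := by
        refine Finset.sum_le_sum fun c hc => ?_
        obtain ⟨x, -, hx⟩ := Finset.mem_image.1 hc
        exact fibre hle hd hD0 hD hI hl' (by rw [← hx, hf])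
      refine h3.trans ?_
      rw [← cyc_sum]
      refine cyc_mono ?_ l
      intro x y
      rw [Finset.sum_ite_eq (univ.image f) (f x), if_pos (Finset.mem_image_of_mem f
        (Finset.mem_univ x))]
    have h3 : cyc (fun x y => if f x = f y then 0 else
        d x y + (if x ∈ I ∨ y ∈ I then 2 * Dm else 0)) l +
        cyc (fun x y => if f x = f y then d x y else if x ∈ I ∨ y ∈ I then Dm else 0) l ≤
        cyc d l + 3 * Dm * ccnt (fun x y => f x ≠ f y ∧ (x ∈ I ∨ y ∈ I)) l := by
      unfold ccnt
      rw [← cyc_mul, ← cyc_add, ← cyc_add]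
      refine cyc_mono ?_ l
      intro x y
      by_cases hxy : f x = f y
      · rw [if_pos hxy, if_pos hxy, if_neg (fun h => h.1 hxy)]
        linarith
      · rw [if_neg hxy, if_neg hxy]
        by_cases h : x ∈ I ∨ y ∈ I
        · rw [if_pos h, if_pos h, if_pos ⟨hxy, h⟩]
          linarith
        · rw [if_neg h, if_neg h, if_neg (fun h' => h h'.2)]
          linarith
    linarith

end Pool.Agent.H189.T.COLL
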